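import Pool.Agent.Helper37.NRT.Four

/-!
# MP_b5afc9_al: the symmetric and alternating groups

The symmetric group of degree `n` contains an elementary abelian `2`-subgroup `V` that is a
TI-subgroup of non-root type and satisfies condition (C) exactly for `n = 4, 6, 7`; the alternating
group of degree `n` contains one exactly for `6 ≤ n ≤ 9`.
-/

namespace Pool.Agent.Results.MP_b5afc9_al.SymmetricAlternating

open Equiv

theorem result :
    (∀ n : ℕ, NRT.HasNonRoot (Perm (Fin n)) ↔ n = 4 ∨ n = 6 ∨ n = 7) ∧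
      ∀ n : ℕ, NRT.HasNonRoot (alternatingGroup (Fin n)) ↔ 6 ≤ n ∧ n ≤ 9 :=
  ⟨NRT.sym_iff, NRT.alt_iff⟩

end Pool.Agent.Results.MP_b5afc9_al.SymmetricAlternating
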