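import Pool.Agent.Helper37.WC.Fin

/-!
# MP_b5afc9_al: condition (C) means weakly closed

An elementary abelian `2`-subgroup `V` of a finite group `G` that is a TI-subgroup of non-root type
satisfies condition (C) if and only if it is weakly closed in its centraliser: no conjugate of `V`
other than `V` itself commutes elementwise with `V`.
-/

namespace Pool.Agent.Results.MP_b5afc9_al.WeaklyClosed

theorem result {G : Type*} [Group G] [Finite G] (V : Subgroup G) (h1 : NRT.ElemAb2 V) (h2 : NRT.IsTI V)
    (h3 : NRT.NonRootType V) :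
    NRT.CondC V ↔ ∀ g : G, (∀ x ∈ V, ∀ y ∈ NRT.conjBy V g, x * y = y * x) → NRT.conjBy V g = V :=
  ⟨fun h4 _ hc => Pool.Agent.Helper37.WC.weaklyClosed_of_condC h1 h2 h3 h4 hc,
    fun hw => Pool.Agent.Helper37.WC.condC_of_weaklyClosed hw⟩

end Pool.Agent.Results.MP_b5afc9_al.WeaklyClosed
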